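import Mathlib
import Pool.Agent.Q77.LU.StmU

/-!
# Project LU, job QIF: quantitative inverse function theorem
-/

set_option autoImplicit false

namespace Pool.Agent.Q251.LU

open MeasureTheory Matrix Set Filter Topology
open scoped ContDiff NNReal
open Pool.Agent.Q77.LU

noncomputable section

/-! ### norms -/

theorem n2_nonneg {ι : Type} [Fintype ι] (x : ι → ℝ) : 0 ≤ n2 x :=
  Finset.sum_nonneg fun i _ => sq_nonneg _

theorem n2_le {ι : Type} [Fintype ι] (x : ι → ℝ) : n2 x ≤ (Fintype.card ι : ℝ) * ‖x‖ ^ 2 := by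
  unfold n2
  calc ∑ i, x i ^ 2 ≤ ∑ _ : ι, ‖x‖ ^ 2 := by
        apply Finset.sum_le_sum
        intro i _
        have h : ‖x i‖ ≤ ‖x‖ := norm_le_pi_norm x i
        have h2 := pow_le_pow_left₀ (norm_nonneg _) h 2
        rwa [Real.norm_eq_abs, sq_abs] at h2
    _ = (Fintype.card ι : ℝ) * ‖x‖ ^ 2 := by
        rw [Finset.sum_const, Finset.card_univ, nsmul_eq_mul]

theorem sq_norm_le_n2 {ι : Type} [Fintype ι] (x : ι → ℝ) : ‖x‖ ^ 2 ≤ n2 x := by
  have h : ‖x‖ ≤ Real.sqrt (n2 x) := by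
    rw [pi_norm_le_iff_of_nonneg (Real.sqrt_nonneg _)]
    intro i
    apply Real.le_sqrt_of_sq_le
    rw [Real.norm_eq_abs, sq_abs]
    exact Finset.single_le_sum (f := fun i => x i ^ 2) (fun i _ => sq_nonneg _) (Finset.mem_univ i)
  calc ‖x‖ ^ 2 ≤ Real.sqrt (n2 x) ^ 2 := pow_le_pow_left₀ (norm_nonneg _) h 2
    _ = n2 x := Real.sq_sqrt (n2_nonneg x)

theorem n2_add_le {ι : Type} [Fintype ι] (x y : ι → ℝ) : n2 (x + y) ≤ 2 * n2 x + 2 * n2 y := by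
  unfold n2
  rw [Finset.mul_sum, Finset.mul_sum, ← Finset.sum_add_distrib]
  apply Finset.sum_le_sum
  intro i _
  rw [Pi.add_apply]
  nlinarith [sq_nonneg (x i - y i)]

variable {P Q S : Type} [Fintype P] [Fintype Q] [Fintype S]

theorem nx_nonneg (x : (P → ℝ) × (Q → ℝ)) : 0 ≤ nx x := add_nonneg (n2_nonneg _) (n2_nonneg _)

theorem nx_le (x : (P → ℝ) × (Q → ℝ)) :
    nx x ≤ ((Fintype.card P : ℝ) + Fintype.card Q) * ‖x‖ ^ 2 := by
  unfold nx
  have h1 : ‖x.1‖ ≤ ‖x‖ := norm_fst_le x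
  have h2 : ‖x.2‖ ≤ ‖x‖ := norm_snd_le x
  have h3 : ‖x.1‖ ^ 2 ≤ ‖x‖ ^ 2 := pow_le_pow_left₀ (norm_nonneg _) h1 2
  have h4 : ‖x.2‖ ^ 2 ≤ ‖x‖ ^ 2 := pow_le_pow_left₀ (norm_nonneg _) h2 2
  have h5 := n2_le x.1
  have h6 := n2_le x.2
  have h7 : (Fintype.card P : ℝ) * ‖x.1‖ ^ 2 ≤ (Fintype.card P : ℝ) * ‖x‖ ^ 2 :=
    mul_le_mul_of_nonneg_left h3 (by positivity)
  have h8 : (Fintype.card Q : ℝ) * ‖x.2‖ ^ 2 ≤ (Fintype.card Q : ℝ) * ‖x‖ ^ 2 :=
    mul_le_mul_of_nonneg_left h4 (by positivity)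
  nlinarith

theorem sq_norm_le_nx (x : (P → ℝ) × (Q → ℝ)) : ‖x‖ ^ 2 ≤ nx x := by
  unfold nx
  have h1 := sq_norm_le_n2 x.1
  have h2 := sq_norm_le_n2 x.2
  rcases le_total ‖x.1‖ ‖x.2‖ with h | h
  · rw [Prod.norm_def, max_eq_right h]
    linarith [n2_nonneg x.1]
  · rw [Prod.norm_def, max_eq_left h]
    linarith [n2_nonneg x.2]

theorem continuous_nx : Continuous (fun x : (P → ℝ) × (Q → ℝ) => nx x) := by
  unfold nx n2
  fun_prop

theorem contDiff_nx : ContDiff ℝ ∞ (fun x : (P → ℝ) × (Q → ℝ) => nx x) := by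
  unfold nx n2
  fun_prop

/-! ### the theorem -/

/-- the data -/
structure Dat (u : (P → ℝ) × (Q → ℝ) → (S → ℝ)) (Λ : ℝ) : Prop where
  one : 1 ≤ Λ
  cP : (Fintype.card P : ℝ) ≤ Λ
  cQ : (Fintype.card Q : ℝ) ≤ Λ
  cS : Fintype.card P + Fintype.card Q = Fintype.card S
  cd : ContDiff ℝ ∞ u
  z : u 0 = 0
  inj : ∀ v, nx v ≤ Λ ^ 2 * n2 (fderiv ℝ u 0 v)
  d2 : ∀ x, nx x ≤ Λ⁻¹ ^ 2 → ‖iteratedFDeriv ℝ 2 u x‖ ≤ Λ

section

variable {u : (P → ℝ) × (Q → ℝ) → (S → ℝ)} {Λ : ℝ}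

theorem Dat.rpos (h : Dat u Λ) : 0 < (8 * Λ ^ 3)⁻¹ := by
  have := h.one
  positivity

theorem Dat.nx_le' (h : Dat u Λ) (x : (P → ℝ) × (Q → ℝ)) : nx x ≤ 2 * Λ * ‖x‖ ^ 2 := by
  refine (nx_le x).trans ?_
  apply mul_le_mul_of_nonneg_right _ (sq_nonneg _)
  linarith [h.cP, h.cQ]

theorem Dat.n2_le' (h : Dat u Λ) (y : S → ℝ) : n2 y ≤ 2 * Λ * ‖y‖ ^ 2 := by
  refine (n2_le y).trans ?_
  apply mul_le_mul_of_nonneg_right _ (sq_nonneg _)
  have : ((Fintype.card P + Fintype.card Q : ℕ) : ℝ) = Fintype.card S := by rw [h.cS]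
  rw [← this]
  push_cast
  linarith [h.cP, h.cQ]

theorem Dat.d2' (h : Dat u Λ) (x : (P → ℝ) × (Q → ℝ)) (hx : ‖x‖ < 2 * (8 * Λ ^ 3)⁻¹) :
    ‖fderiv ℝ (fderiv ℝ u) x‖ ≤ Λ := by
  have h1 := h.one
  rw [← norm_iteratedFDeriv_one, norm_iteratedFDeriv_fderiv]
  apply h.d2
  refine (h.nx_le' x).trans ?_
  have h2 : ‖x‖ ^ 2 ≤ (2 * (8 * Λ ^ 3)⁻¹) ^ 2 := pow_le_pow_left₀ (norm_nonneg _) hx.le 2
  calc 2 * Λ * ‖x‖ ^ 2 ≤ 2 * Λ * (2 * (8 * Λ ^ 3)⁻¹) ^ 2 :=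
        mul_le_mul_of_nonneg_left h2 (by positivity)
    _ = Λ⁻¹ ^ 2 * (Λ⁻¹ ^ 3 / 8) := by field_simp; ring
    _ ≤ Λ⁻¹ ^ 2 * 1 := by
        apply mul_le_mul_of_nonneg_left _ (by positivity)
        have h3 : Λ⁻¹ ≤ 1 := inv_le_one_of_one_le₀ h1
        have h4 : Λ⁻¹ ^ 3 ≤ 1 := pow_le_one₀ (by positivity) h3
        linarith
    _ = Λ⁻¹ ^ 2 := mul_one _

/-- the derivative is nearly constant -/
theorem Dat.near (h : Dat u Λ) (x : (P → ℝ) × (Q → ℝ)) (hx : ‖x‖ < 2 * (8 * Λ ^ 3)⁻¹) :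
    ‖fderiv ℝ u x - fderiv ℝ u 0‖ ≤ (4 * Λ ^ 2)⁻¹ := by
  have h1 := h.one
  have hr := h.rpos
  have hd : Differentiable ℝ (fderiv ℝ u) := by
    have : ContDiff ℝ 1 (fderiv ℝ u) := h.cd.fderiv_right (by norm_cast)
    exact this.differentiable (by norm_num)
  have h2 := Convex.norm_image_sub_le_of_norm_fderiv_le (𝕜 := ℝ) (f := fderiv ℝ u)
    (s := Metric.ball 0 (2 * (8 * Λ ^ 3)⁻¹)) (C := Λ) (x := 0) (y := x)
    (fun y _ => hd y) (fun y hy => h.d2' y (by simpa using hy)) (convex_ball _ _)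
    (by simp only [Metric.mem_ball, dist_self]; positivity) (by simpa using hx)
  refine h2.trans ?_
  rw [sub_zero]
  calc Λ * ‖x‖ ≤ Λ * (2 * (8 * Λ ^ 3)⁻¹) := mul_le_mul_of_nonneg_left hx.le (by positivity)
    _ = (4 * Λ ^ 2)⁻¹ := by field_simp; ring

/-- approximation by the linear map -/
theorem Dat.approx (h : Dat u Λ) (x y : (P → ℝ) × (Q → ℝ)) (hx : ‖x‖ < 2 * (8 * Λ ^ 3)⁻¹)
    (hy : ‖y‖ < 2 * (8 * Λ ^ 3)⁻¹) :
    ‖u x - u y - fderiv ℝ u 0 (x - y)‖ ≤ (4 * Λ ^ 2)⁻¹ * ‖x - y‖ := by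
  have hd : Differentiable ℝ u := h.cd.differentiable (by simp)
  exact Convex.norm_image_sub_le_of_norm_fderiv_le' (𝕜 := ℝ) (f := u)
    (s := Metric.ball 0 (2 * (8 * Λ ^ 3)⁻¹)) (φ := fderiv ℝ u 0)
    (fun y _ => hd y) (fun y hy => h.near y (by simpa using hy)) (convex_ball _ _)
    (by simpa using hy) (by simpa using hx)

/-- perturbation of the lower bound -/
theorem Dat.pert (h : Dat u Λ) (w : (P → ℝ) × (Q → ℝ)) (a : S → ℝ)
    (ha : ‖a - fderiv ℝ u 0 w‖ ≤ (4 * Λ ^ 2)⁻¹ * ‖w‖) : nx w ≤ 4 * Λ ^ 2 * n2 a := by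
  have h1 := h.one
  have h0 : 0 < Λ := by linarith
  have h2 := h.inj w
  have h3 : n2 (fderiv ℝ u 0 w) ≤ 2 * n2 a + 2 * n2 (fderiv ℝ u 0 w - a) := by
    have := n2_add_le a (fderiv ℝ u 0 w - a)
    rwa [add_sub_cancel] at this
  have h4 := h.n2_le' (fderiv ℝ u 0 w - a)
  rw [← norm_neg, neg_sub] at ha
  have h5 : ‖fderiv ℝ u 0 w - a‖ ^ 2 ≤ ((4 * Λ ^ 2)⁻¹ * ‖w‖) ^ 2 :=
    pow_le_pow_left₀ (norm_nonneg _) ha 2
  have h6 : n2 (fderiv ℝ u 0 w - a) ≤ 2 * Λ * ((4 * Λ ^ 2)⁻¹ ^ 2 * nx w) := by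
    refine h4.trans ?_
    apply mul_le_mul_of_nonneg_left _ (by positivity)
    rw [mul_pow] at h5
    refine h5.trans ?_
    exact mul_le_mul_of_nonneg_left (sq_norm_le_nx w) (by positivity)
  have h7 : Λ ^ 2 * (2 * (2 * Λ * ((4 * Λ ^ 2)⁻¹ ^ 2 * nx w))) = Λ⁻¹ * nx w / 4 := by
    field_simp
    ring
  have h8 : Λ⁻¹ * nx w ≤ nx w := by
    have h9 : Λ⁻¹ ≤ 1 := inv_le_one_of_one_le₀ h1
    have := mul_le_mul_of_nonneg_right h9 (nx_nonneg w)
    rwa [one_mul] at this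
  have h10 : nx w ≤ Λ ^ 2 * (2 * n2 a) + nx w / 4 := by
    calc nx w ≤ Λ ^ 2 * (2 * n2 a + 2 * n2 (fderiv ℝ u 0 w - a)) :=
          h2.trans (mul_le_mul_of_nonneg_left h3 (by positivity))
      _ ≤ Λ ^ 2 * (2 * n2 a + 2 * (2 * Λ * ((4 * Λ ^ 2)⁻¹ ^ 2 * nx w))) := by
          apply mul_le_mul_of_nonneg_left _ (by positivity)
          linarith
      _ = Λ ^ 2 * (2 * n2 a) + Λ ^ 2 * (2 * (2 * Λ * ((4 * Λ ^ 2)⁻¹ ^ 2 * nx w))) := by ring
      _ = Λ ^ 2 * (2 * n2 a) + Λ⁻¹ * nx w / 4 := by rw [h7]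
      _ ≤ Λ ^ 2 * (2 * n2 a) + nx w / 4 := by linarith
  have h11 : 0 ≤ Λ ^ 2 * n2 a := mul_nonneg (by positivity) (n2_nonneg a)
  linarith

theorem Dat.c1 (h : Dat u Λ) (x y : (P → ℝ) × (Q → ℝ)) (hx : ‖x‖ < 2 * (8 * Λ ^ 3)⁻¹)
    (hy : ‖y‖ < 2 * (8 * Λ ^ 3)⁻¹) : nx (x - y) ≤ 4 * Λ ^ 2 * n2 (u x - u y) :=
  h.pert _ _ (h.approx x y hx hy)

theorem Dat.c2 (h : Dat u Λ) (x : (P → ℝ) × (Q → ℝ)) (hx : ‖x‖ < 2 * (8 * Λ ^ 3)⁻¹)
    (v : (P → ℝ) × (Q → ℝ)) : nx v ≤ 4 * Λ ^ 2 * n2 (fderiv ℝ u x v) := by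
  apply h.pert
  have h1 : fderiv ℝ u x v - fderiv ℝ u 0 v = (fderiv ℝ u x - fderiv ℝ u 0) v := by simp
  rw [h1]
  exact (ContinuousLinearMap.le_opNorm _ _).trans
    (mul_le_mul_of_nonneg_right (h.near x hx) (norm_nonneg _))

theorem eq_zero_of_nx {x : (P → ℝ) × (Q → ℝ)} (hx : nx x ≤ 0) : x = 0 := by
  have h1 := sq_norm_le_nx x
  have h2 : ‖x‖ ^ 2 ≤ 0 := h1.trans hx
  have h3 : ‖x‖ = 0 := by
    have := le_antisymm h2 (sq_nonneg _)
    exact pow_eq_zero_iff (two_ne_zero) |>.1 this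
  exact norm_eq_zero.1 h3

/-- the derivative as an equivalence -/
theorem Dat.equiv (h : Dat u Λ) (x : (P → ℝ) × (Q → ℝ)) (hx : ‖x‖ < 2 * (8 * Λ ^ 3)⁻¹) :
    ∃ e : ((P → ℝ) × (Q → ℝ)) ≃L[ℝ] (S → ℝ),
      (e : ((P → ℝ) × (Q → ℝ)) →L[ℝ] (S → ℝ)) = fderiv ℝ u x := by
  have hinj : Function.Injective (fderiv ℝ u x : ((P → ℝ) × (Q → ℝ)) →ₗ[ℝ] (S → ℝ)) := by
    rw [← LinearMap.ker_eq_bot, LinearMap.ker_eq_bot']
    intro v hv
    apply eq_zero_of_nx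
    have h1 := h.c2 x hx v
    have h2 : fderiv ℝ u x v = 0 := hv
    rw [h2] at h1
    have h3 : n2 (0 : S → ℝ) = 0 := by simp [n2]
    rw [h3, mul_zero] at h1
    exact h1
  have hdim : Module.finrank ℝ ((P → ℝ) × (Q → ℝ)) = Module.finrank ℝ (S → ℝ) := by
    rw [Module.finrank_prod, Module.finrank_fintype_fun_eq_card,
      Module.finrank_fintype_fun_eq_card, Module.finrank_fintype_fun_eq_card, h.cS]
  refine ⟨(LinearMap.linearEquivOfInjective _ hinj hdim).toContinuousLinearEquiv, ?_⟩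
  apply ContinuousLinearMap.ext
  intro v
  rfl

end

theorem t_QIF : S_QIF := by
  refine ⟨3, 8, by norm_num, ?_⟩
  intro P Q S _ _ _ u Λ r h1 hP hQ hS hcd hz hinj hd2 hr
  have h : Dat u Λ := ⟨h1, hP, hQ, hS, hcd, hz, hinj, hd2⟩
  have h0 : 0 < Λ := by linarith
  have hr0 : 0 < r := by rw [hr]; exact h.rpos
  have hrΛ : 2 * Λ * r = (4 * Λ ^ 2)⁻¹ := by
    rw [hr]
    field_simp
    ring
  have hball : ∀ x : (P → ℝ) × (Q → ℝ), nx x < (2 * r) ^ 2 → ‖x‖ < 2 * (8 * Λ ^ 3)⁻¹ := by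
    intro x hx
    rw [← hr]
    have h2 := (sq_norm_le_nx x).trans_lt hx
    exact lt_of_pow_lt_pow_left₀ 2 (by positivity) h2
  have hball' : ∀ x : (P → ℝ) × (Q → ℝ), nx x < r ^ 2 → ‖x‖ < 2 * (8 * Λ ^ 3)⁻¹ := by
    intro x hx
    apply hball
    nlinarith [sq_nonneg r]
  -- the linear equivalence at the origin
  obtain ⟨e0, he0⟩ := h.equiv 0 (by rw [norm_zero]; have := h.rpos; positivity)
  obtain ⟨c, hcv⟩ : ∃ c : ℝ≥0, (c : ℝ) = (4 * Λ ^ 2)⁻¹ := ⟨⟨_, by positivity⟩, rfl⟩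
  obtain ⟨N, hN⟩ : ∃ N : ℝ≥0, (N : ℝ) = 2 * Λ ^ 2 := ⟨⟨_, by positivity⟩, rfl⟩
  have happ : ApproximatesLinearOn u (e0 : ((P → ℝ) × (Q → ℝ)) →L[ℝ] (S → ℝ))
      (Metric.ball 0 (2 * r)) c := by
    rw [he0]
    intro x hx y hy
    rw [hr] at hx hy
    rw [hcv]
    exact h.approx x y (by simpa using hx) (by simpa using hy)
  have hsymm : ∀ y : S → ℝ, ‖e0.symm y‖ ≤ 2 * Λ ^ 2 * ‖y‖ := by
    intro y
    have h2 : ‖e0.symm y‖ ^ 2 ≤ (2 * Λ ^ 2 * ‖y‖) ^ 2 := by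
      have h3 : fderiv ℝ u 0 (e0.symm y) = y := by
        rw [← he0]
        simp
      calc ‖e0.symm y‖ ^ 2 ≤ nx (e0.symm y) := sq_norm_le_nx _
        _ ≤ Λ ^ 2 * n2 (fderiv ℝ u 0 (e0.symm y)) := h.inj _
        _ = Λ ^ 2 * n2 y := by rw [h3]
        _ ≤ Λ ^ 2 * (2 * Λ * ‖y‖ ^ 2) := mul_le_mul_of_nonneg_left (h.n2_le' y) (by positivity)
        _ = 2 * Λ ^ 3 * ‖y‖ ^ 2 := by ring
        _ ≤ 4 * Λ ^ 4 * ‖y‖ ^ 2 := by
            apply mul_le_mul_of_nonneg_right _ (sq_nonneg _)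
            have h5 : 0 < Λ ^ 3 := by positivity
            nlinarith
        _ = (2 * Λ ^ 2 * ‖y‖) ^ 2 := by ring
    exact le_of_sq_le_sq h2 (by positivity)
  let ri : (e0 : ((P → ℝ) × (Q → ℝ)) →L[ℝ] (S → ℝ)).NonlinearRightInverse :=
    { toFun := e0.symm
      nnnorm := N
      bound' := fun y => by rw [hN]; exact hsymm y
      right_inv' := fun y => by simp }
  have hri : ri.nnnorm = N := rfl
  have hlt : c < N⁻¹ := by
    rw [← NNReal.coe_lt_coe, NNReal.coe_inv, hcv, hN]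
    apply inv_strictAnti₀ (by positivity)
    nlinarith [sq_nonneg Λ]
  refine ⟨fun x y hx hy => h.c1 x y (hball' x hx) (hball' y hy),
    fun x hx v => h.c2 x (hball' x hx) v, ?_, ?_⟩
  · intro ρ hρ0 hρr
    have hsub : {x : (P → ℝ) × (Q → ℝ) | nx x < ρ ^ 2} ⊆ Metric.ball 0 (2 * r) := by
      intro x hx
      have hx' : nx x < ρ ^ 2 := hx
      have h3 : nx x < (2 * r) ^ 2 := by nlinarith
      have h4 := (sq_norm_le_nx x).trans_lt h3
      have h5 : ‖x‖ < 2 * r := lt_of_pow_lt_pow_left₀ 2 (by positivity) h4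
      simpa using h5
    constructor
    · refine (happ.mono_set hsub).open_image ri ?_ (Or.inr hlt)
      exact isOpen_lt continuous_nx continuous_const
    · intro y hy
      have hεs : Metric.closedBall (0 : (P → ℝ) × (Q → ℝ)) (ρ / (2 * Λ)) ⊆
          {x | nx x < ρ ^ 2} := by
        intro x hx
        have h3 : ‖x‖ ≤ ρ / (2 * Λ) := by simpa using hx
        have h4 : ‖x‖ ^ 2 ≤ (ρ / (2 * Λ)) ^ 2 := pow_le_pow_left₀ (norm_nonneg _) h3 2
        change nx x < ρ ^ 2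
        calc nx x ≤ 2 * Λ * ‖x‖ ^ 2 := h.nx_le' x
          _ ≤ 2 * Λ * (ρ / (2 * Λ)) ^ 2 := mul_le_mul_of_nonneg_left h4 (by positivity)
          _ = ρ ^ 2 * (2 * Λ)⁻¹ := by field_simp
          _ < ρ ^ 2 * 1 := by
              apply mul_lt_mul_of_pos_left _ (by positivity)
              apply inv_lt_one_of_one_lt₀
              linarith
          _ = ρ ^ 2 := mul_one _
      have hsurj := happ.surjOn_closedBall_of_nonlinearRightInverse ri (b := 0)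
        (ε := ρ / (2 * Λ)) (by positivity) (hεs.trans hsub)
      have hy' : y ∈ Metric.closedBall (u 0)
          (((ri.nnnorm : ℝ)⁻¹ - (c : ℝ)) * (ρ / (2 * Λ))) := by
        have e1 : (((ri.nnnorm : ℝ)⁻¹ - (c : ℝ)) *
            (ρ / (2 * Λ))) = r * ρ := by
          rw [hri, hcv, hN, hr]
          field_simp
          ring
        rw [e1, hz, mem_closedBall_zero_iff]
        have h3 := (sq_norm_le_n2 y).trans_lt hy
        exact (lt_of_pow_lt_pow_left₀ 2 (by positivity) h3).le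
      obtain ⟨x, hx, hxy⟩ := hsurj hy'
      exact ⟨x, hεs hx, hxy⟩
  · -- the smooth inverse
    have hc : Subsingleton ((P → ℝ) × (Q → ℝ)) ∨
        c < ‖(e0.symm : (S → ℝ) →L[ℝ] ((P → ℝ) × (Q → ℝ)))‖₊⁻¹ := by
      rcases e0.subsingleton_or_nnnorm_symm_pos with hs | hs
      · exact Or.inl hs
      · right
        refine hlt.trans_le ?_
        apply inv_anti₀ hs
        rw [← NNReal.coe_le_coe, hN]
        exact ContinuousLinearMap.opNorm_le_bound _ (by positivity) hsymm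
    let φ := happ.toOpenPartialHomeomorph u (Metric.ball 0 (2 * r)) hc Metric.isOpen_ball
    have hφ : (φ : (P → ℝ) × (Q → ℝ) → (S → ℝ)) = u := rfl
    have hφs : φ.source = Metric.ball 0 (2 * r) := rfl
    have hφt : φ.target = u '' Metric.ball 0 (2 * r) := rfl
    -- the inverse is smooth
    have hsm : ∀ y ∈ φ.target, ContDiffAt ℝ ∞ φ.symm y := by
      intro y hy
      have hx : φ.symm y ∈ φ.source := φ.map_target hy
      rw [hφs, mem_ball_zero_iff, hr] at hx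
      obtain ⟨e, he⟩ := h.equiv _ hx
      refine φ.contDiffAt_symm (f₀' := e) hy ?_ ?_
      · rw [he, hφ]
        exact (hcd.differentiable (by simp) _).hasFDerivAt
      · rw [hφ]
        exact hcd.contDiffAt
    -- the cut-off
    let β : (P → ℝ) × (Q → ℝ) → ℝ := fun x => Real.smoothTransition (2 - nx x / r ^ 2)
    have hβ : ContDiff ℝ ∞ β := by
      apply Real.smoothTransition.contDiff.comp
      exact contDiff_const.sub (contDiff_nx.div_const _)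
    have hβ1 : ∀ x, nx x < r ^ 2 → β x = 1 := by
      intro x hx
      apply Real.smoothTransition.one_of_one_le
      have : nx x / r ^ 2 ≤ 1 := by
        rw [div_le_one (by positivity)]
        exact hx.le
      linarith
    have hβ0 : ∀ x, 2 * r ^ 2 < nx x → β x = 0 := by
      intro x hx
      apply Real.smoothTransition.zero_of_nonpos
      have : 2 ≤ nx x / r ^ 2 := by
        rw [le_div_iff₀ (by positivity)]
        exact hx.le
      linarith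
    let K : Set ((P → ℝ) × (Q → ℝ)) := {x | nx x ≤ 2 * r ^ 2}
    have hKsub : K ⊆ Metric.ball 0 (2 * r) := by
      intro x hx
      have hx' : nx x ≤ 2 * r ^ 2 := hx
      have h3 : nx x < (2 * r) ^ 2 := by nlinarith [sq_nonneg r, pow_pos hr0 2]
      have h4 := (sq_norm_le_nx x).trans_lt h3
      have h5 : ‖x‖ < 2 * r := lt_of_pow_lt_pow_left₀ 2 (by positivity) h4
      simpa using h5
    have hKc : IsCompact K := by
      apply Metric.isCompact_of_isClosed_isBounded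
      · exact isClosed_le continuous_nx continuous_const
      · exact Metric.isBounded_ball.subset hKsub
    have huK : IsCompact (u '' K) := hKc.image hcd.continuous
    classical
    let Ξ : (S → ℝ) → (P → ℝ) × (Q → ℝ) := fun y =>
      if y ∈ φ.target then β (φ.symm y) • φ.symm y else 0
    refine ⟨Ξ, ?_, ?_⟩
    · rw [contDiff_iff_contDiffAt]
      intro y
      by_cases hy : y ∈ φ.target
      · have e1 : Ξ =ᶠ[𝓝 y] fun y => β (φ.symm y) • φ.symm y := by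
          filter_upwards [φ.open_target.mem_nhds hy] with z hz
          exact if_pos hz
        refine ContDiffAt.congr_of_eventuallyEq ?_ e1
        exact (hβ.contDiffAt.comp y (hsm y hy)).smul (hsm y hy)
      · have hy' : y ∉ u '' K := fun hyK => hy (by
          rw [hφt]
          exact image_mono hKsub hyK)
        have e1 : Ξ =ᶠ[𝓝 y] fun _ => 0 := by
          filter_upwards [huK.isClosed.isOpen_compl.mem_nhds hy'] with z hz
          by_cases hzt : z ∈ φ.target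
          · have e2 : Ξ z = β (φ.symm z) • φ.symm z := if_pos hzt
            rw [e2, hβ0, zero_smul]
            by_contra hcon
            apply hz
            refine ⟨φ.symm z, not_lt.1 hcon, ?_⟩
            have := φ.right_inv hzt
            rwa [hφ] at this
          · exact if_neg hzt
        exact ContDiffAt.congr_of_eventuallyEq contDiffAt_const e1
    · intro x hx
      have hxs : x ∈ φ.source := by
        rw [hφs, mem_ball_zero_iff, hr]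
        exact hball' x hx
      have hxt : u x ∈ φ.target := φ.map_source hxs
      have e1 : φ.symm (u x) = x := φ.left_inv hxs
      have e2 : Ξ (u x) = β (φ.symm (u x)) • φ.symm (u x) := if_pos hxt
      rw [e2, e1, hβ1 x hx, one_smul]

end

end Pool.Agent.Q251.LU
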